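import Pool.Agent.H815.QC.Stm3

/-!
# Project QC, L3
-/

set_option autoImplicit false

namespace Pool.Agent.H550.QC

open Pool.Agent.H815.QC Pool.Agent.Y110.FJ Pool.Agent.T2H65.GP

theorem L3_proof (hL1 : S_L1) : Pool.Agent.H815.QC.S_L3 := by
  intro N _ V _ Λ α β S hB v' y' hv hy
  obtain ⟨q, hq, S', hC, hsub, hH, -, hlk⟩ := hL1 N V Λ α β S hB v' y' hv hy
  obtain ⟨w, -, hw, -, -⟩ := hC.two
  have e : S' = lc Λ S w := by
    funext w'
    apply propext
    constructor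
    · intro h
      exact ⟨hsub w' h, fun u => (hlk w' h u).trans (hlk w hw u).symm⟩
    · rintro ⟨h1, h2⟩
      exact hC.clo w' fun s hs => (h2 s).2 ((hlk w hw s).2 hs)
  refine ⟨w, hsub w hw, q, hq, ?_⟩
  rw [← e]
  exact hH

end Pool.Agent.H550.QC
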