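import Mathlib
import Pool.Agent.H964.QC.Stm

/-!
QC-LV: characteristic function of the logarithm of one plus a small centred random variable.
-/

set_option autoImplicit false

open MeasureTheory ProbabilityTheory Filter Finset

namespace Pool.Agent.H550.QC

open Pool.Agent.H964.QC

namespace LV

theorem exp_taylor (t : ℝ) :
    ‖Complex.exp (Complex.I * (t : ℂ)) - (1 + Complex.I * (t : ℂ) - (t : ℂ) ^ 2 / 2)‖ ≤
      4 * |t| ^ 3 := by
  have hn : ‖Complex.I * (t : ℂ)‖ = |t| := by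
    rw [norm_mul, Complex.norm_I, one_mul, Complex.norm_real, Real.norm_eq_abs]
  have hI : (Complex.I * (t : ℂ)) ^ 2 = -(t : ℂ) ^ 2 := by
    rw [mul_pow, Complex.I_sq]; ring
  rcases le_total |t| 1 with h | h
  · have h1 := Complex.exp_bound (x := Complex.I * (t : ℂ)) (by rw [hn]; exact h) (n := 3)
      (by norm_num)
    rw [hn] at h1
    have h2 : ∑ m ∈ range 3, (Complex.I * (t : ℂ)) ^ m / (m.factorial : ℂ) =
        1 + Complex.I * (t : ℂ) - (t : ℂ) ^ 2 / 2 := by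
      rw [Finset.sum_range_succ, Finset.sum_range_succ, Finset.sum_range_succ,
        Finset.sum_range_zero, hI]
      simp only [pow_zero, pow_one, Nat.factorial]
      push_cast
      ring
    rw [h2] at h1
    refine le_trans h1 ?_
    have h3 : ((Nat.succ 3 : ℕ) : ℝ) * (((Nat.factorial 3 : ℕ) : ℝ) * ((3 : ℕ) : ℝ))⁻¹ ≤ 4 := by
      norm_num [Nat.factorial]
    have h4 : 0 ≤ |t| ^ 3 := by positivity
    nlinarith
  · have h1 : ‖Complex.exp (Complex.I * (t : ℂ))‖ = 1 := by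
      rw [mul_comm]; exact Complex.norm_exp_ofReal_mul_I t
    have h2 : ‖1 + Complex.I * (t : ℂ) - (t : ℂ) ^ 2 / 2‖ ≤ 1 + |t| + |t| ^ 2 / 2 := by
      refine le_trans (norm_sub_le _ _) ?_
      refine add_le_add (le_trans (norm_add_le _ _) ?_) ?_
      · rw [hn, norm_one]
      · rw [norm_div, norm_pow, Complex.norm_real, Real.norm_eq_abs]
        norm_num
    refine le_trans (norm_sub_le _ _) ?_
    rw [h1]
    have h3 : |t| ≤ |t| ^ 3 := by nlinarith [sq_nonneg (|t|), sq_nonneg (|t| - 1)]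
    have h4 : |t| ^ 2 ≤ |t| ^ 3 := by nlinarith [sq_nonneg (|t|)]
    have h5 : 1 ≤ |t| ^ 3 := le_trans h h3
    linarith

theorem log_taylor (x : ℝ) (hx : |x| ≤ 1 / 2) :
    |Real.log (1 + x) - (x - x ^ 2 / 2)| ≤ 2 * |x| ^ 3 := by
  have h1 := Real.abs_log_sub_add_sum_range_le (x := -x) (by rw [abs_neg]; linarith) 2
  rw [abs_neg, Finset.sum_range_succ, Finset.sum_range_succ, Finset.sum_range_zero] at h1
  have h2 : (0 + (-x) ^ (0 + 1) / (((0 : ℕ) : ℝ) + 1) + (-x) ^ (1 + 1) / (((1 : ℕ) : ℝ) + 1)) +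
      Real.log (1 - -x) = Real.log (1 + x) - (x - x ^ 2 / 2) := by
    rw [sub_neg_eq_add]
    push_cast
    ring
  rw [h2] at h1
  refine le_trans h1 ?_
  rw [div_le_iff₀ (by linarith)]
  have h3 : 0 ≤ |x| ^ (2 + 1) := by positivity
  have h4 : |x| ^ 3 = |x| ^ (2 + 1) := rfl
  rw [h4]
  nlinarith

theorem pw_one (u : ℝ) : |u| ≤ 1 + u ^ 4 := by
  have h : |u| ^ 2 = u ^ 2 := sq_abs u
  nlinarith [sq_nonneg (u ^ 2 - 1), sq_nonneg (|u| - 1), sq_nonneg (u ^ 2)]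

theorem pw_two (u : ℝ) : u ^ 2 ≤ 1 + u ^ 4 := by
  nlinarith [sq_nonneg (u ^ 2 - 1)]

theorem pw_three (u : ℝ) : |u| ^ 3 ≤ 1 + u ^ 4 := by
  have h : |u| ^ 2 = u ^ 2 := sq_abs u
  have h0 := abs_nonneg u
  have h4 : u ^ 4 = |u| ^ 4 := by
    rw [← abs_pow]; exact (abs_of_nonneg (by positivity)).symm
  rw [h4]
  rcases le_total |u| 1 with h1 | h1
  · have : |u| ^ 3 ≤ 1 := pow_le_one₀ h0 h1
    have h5 : 0 ≤ |u| ^ 4 := by positivity
    linarith
  · have : |u| ^ 3 ≤ |u| ^ 4 := pow_le_pow_right₀ h1 (by norm_num)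
    linarith

/-- the Taylor polynomial -/
noncomputable def pol (x d u : ℝ) : ℂ :=
  1 + Complex.I * ((u * (x - x ^ 2 / 2 + d / 2) : ℝ) : ℂ) -
    ((u ^ 2 * (x ^ 2 + d * x) / 2 : ℝ) : ℂ)

theorem ptw_small (x d u : ℝ) (hx : |x| ≤ 1 / 2) (hd0 : 0 ≤ d) (hd1 : d ≤ 1) :
    ‖Complex.exp (Complex.I * ((u * (Real.log (1 + x) + 1 / 2 * d) : ℝ) : ℂ)) - pol x d u‖ ≤
      200 * (1 + u ^ 4) * (|x| ^ 3 + x ^ 4 + d ^ 2) := by
  obtain ⟨r, hr⟩ : ∃ r, r = Real.log (1 + x) - (x - x ^ 2 / 2) := ⟨_, rfl⟩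
  have hrb : |r| ≤ 2 * |x| ^ 3 := by rw [hr]; exact log_taylor x hx
  obtain ⟨y, hy⟩ : ∃ y, y = Real.log (1 + x) + 1 / 2 * d := ⟨_, rfl⟩
  have hyr : y = x - x ^ 2 / 2 + r + d / 2 := by rw [hy, hr]; ring
  obtain ⟨a, ha⟩ : ∃ a, a = |x| := ⟨_, rfl⟩
  have ha0 : 0 ≤ a := by rw [ha]; exact abs_nonneg x
  have hx2 : x ^ 2 = a ^ 2 := by rw [ha, sq_abs]
  have hx4 : x ^ 4 = a ^ 4 := by
    have : x ^ 4 = (x ^ 2) ^ 2 := by ring
    rw [this, hx2]; ring
  have ha12 : a ≤ 1 / 2 := by rw [ha]; exact hx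
  have ha2 : a ^ 2 ≤ 1 / 2 * a := by nlinarith
  have ha3 : a ^ 3 ≤ 1 / 2 * a ^ 2 := by nlinarith [sq_nonneg a]
  have ha30 : 0 ≤ a ^ 3 := by positivity
  rw [← ha] at hrb
  have hxa : |x| = a := ha.symm
  -- bounds
  have hyb : |y| ≤ 2 * a + d := by
    rw [hyr]
    have h1 := abs_le.1 (le_of_eq hxa)
    have h2 := abs_le.1 hrb
    rw [hx2]
    apply abs_le.2
    constructor <;> nlinarith [h1.1, h1.2, h2.1, h2.2]
  have hy3 : |y| ^ 3 ≤ 32 * a ^ 3 + 4 * d ^ 2 := by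
    have h1 : |y| ^ 3 ≤ (2 * a + d) ^ 3 := pow_le_pow_left₀ (abs_nonneg y) hyb 3
    have h2 : (2 * a + d) ^ 3 ≤ 4 * ((2 * a) ^ 3 + d ^ 3) := by
      nlinarith [mul_nonneg (add_nonneg (mul_nonneg zero_le_two ha0) hd0) (sq_nonneg (2 * a - d))]
    have h3 : d ^ 3 ≤ d ^ 2 := by nlinarith [sq_nonneg d]
    nlinarith
  have hyx : |y - x| ≤ 3 / 2 * a ^ 2 + d / 2 := by
    rw [hyr, hx2]
    have h2 := abs_le.1 hrb
    apply abs_le.2
    constructor <;> nlinarith [h2.1, h2.2]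
  have hyx2 : (y - x) ^ 2 ≤ 5 * a ^ 4 + d ^ 2 := by
    have h1 : (y - x) ^ 2 = |y - x| ^ 2 := (sq_abs _).symm
    rw [h1]
    have h2 : |y - x| ^ 2 ≤ (3 / 2 * a ^ 2 + d / 2) ^ 2 :=
      pow_le_pow_left₀ (abs_nonneg _) hyx 2
    have h3 : (3 / 2 * a ^ 2 + d / 2) ^ 2 ≤ 5 * a ^ 4 + d ^ 2 := by
      nlinarith [sq_nonneg (3 / 2 * a ^ 2 - d / 2), sq_nonneg (a ^ 2), sq_nonneg d]
    linarith
  have hq : |y ^ 2 - x ^ 2 - d * x| ≤ a ^ 3 + 9 * a ^ 4 + d ^ 2 := by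
    have h1 : y ^ 2 - x ^ 2 - d * x = -x ^ 3 + 2 * x * r + (y - x) ^ 2 := by
      rw [hyr]; ring
    rw [h1]
    have h2 : |-x ^ 3 + 2 * x * r + (y - x) ^ 2| ≤ |-x ^ 3 + 2 * x * r| + |(y - x) ^ 2| :=
      abs_add_le _ _
    have h3 : |-x ^ 3 + 2 * x * r| ≤ |-x ^ 3| + |2 * x * r| := abs_add_le _ _
    have h4 : |-x ^ 3| = a ^ 3 := by rw [abs_neg, abs_pow, hxa]
    have h5 : |2 * x * r| = 2 * a * |r| := by rw [abs_mul, abs_mul, hxa]; norm_num
    have h6 : |(y - x) ^ 2| = (y - x) ^ 2 := abs_of_nonneg (sq_nonneg _)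
    have h7 : 2 * a * |r| ≤ 4 * a ^ 4 := by
      have := mul_le_mul_of_nonneg_left hrb (mul_nonneg zero_le_two ha0)
      nlinarith
    linarith
  have hmain : Complex.exp (Complex.I * ((u * y : ℝ) : ℂ)) - pol x d u =
      (Complex.exp (Complex.I * ((u * y : ℝ) : ℂ)) -
        (1 + Complex.I * ((u * y : ℝ) : ℂ) - ((u * y : ℝ) : ℂ) ^ 2 / 2)) +
      (Complex.I * ((u * r : ℝ) : ℂ) -
        ((u ^ 2 / 2 * (y ^ 2 - x ^ 2 - d * x) : ℝ) : ℂ)) := by
    unfold pol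
    rw [hyr]
    push_cast
    ring
  rw [← hy, hmain]
  have h1 := exp_taylor (u * y)
  have h2 : ‖Complex.I * ((u * r : ℝ) : ℂ)‖ = |u| * |r| := by
    rw [norm_mul, Complex.norm_I, one_mul, Complex.norm_real, Real.norm_eq_abs, abs_mul]
  have h3 : ‖((u ^ 2 / 2 * (y ^ 2 - x ^ 2 - d * x) : ℝ) : ℂ)‖ =
      u ^ 2 / 2 * |y ^ 2 - x ^ 2 - d * x| := by
    rw [Complex.norm_real, Real.norm_eq_abs, abs_mul, abs_of_nonneg (by positivity)]
  refine le_trans (norm_add_le _ _) ?_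
  refine le_trans (add_le_add h1 (le_trans (norm_sub_le _ _) (le_of_eq (by rw [h2, h3])))) ?_
  rw [abs_mul, mul_pow, hxa, hx4]
  have k1 := pw_one u
  have k2 := pw_two u
  have k3 := pw_three u
  have k4 : 0 ≤ a ^ 4 := by positivity
  have k5 : 0 ≤ d ^ 2 := by positivity
  have j1 : |u| ^ 3 * |y| ^ 3 ≤ (1 + u ^ 4) * (32 * a ^ 3 + 4 * d ^ 2) :=
    mul_le_mul k3 hy3 (by positivity) (by positivity)
  have j2 : |u| * |r| ≤ (1 + u ^ 4) * (2 * a ^ 3) :=
    mul_le_mul k1 hrb (abs_nonneg _) (by positivity)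
  have j3 : u ^ 2 * |y ^ 2 - x ^ 2 - d * x| ≤ (1 + u ^ 4) * (a ^ 3 + 9 * a ^ 4 + d ^ 2) :=
    mul_le_mul k2 hq (abs_nonneg _) (by positivity)
  have k6 : 0 ≤ (1 + u ^ 4) * a ^ 3 := by positivity
  have k7 : 0 ≤ (1 + u ^ 4) * a ^ 4 := by positivity
  have k8 : 0 ≤ (1 + u ^ 4) * d ^ 2 := by positivity
  nlinarith

theorem ptw_large (x d u : ℝ) (hx : 1 / 2 ≤ |x|) (hd0 : 0 ≤ d) (hd1 : d ≤ 1) :
    ‖Complex.exp (Complex.I * ((u * (Real.log (1 + x) + 1 / 2 * d) : ℝ) : ℂ)) - pol x d u‖ ≤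
      200 * (1 + u ^ 4) * (|x| ^ 3 + x ^ 4 + d ^ 2) := by
  obtain ⟨a, ha⟩ : ∃ a, a = |x| := ⟨_, rfl⟩
  have hxa : |x| = a := ha.symm
  have ha0 : 0 ≤ a := by rw [ha]; exact abs_nonneg x
  have hx2 : x ^ 2 = a ^ 2 := by rw [ha, sq_abs]
  have hx4 : x ^ 4 = a ^ 4 := by
    have : x ^ 4 = (x ^ 2) ^ 2 := by ring
    rw [this, hx2]; ring
  rw [hxa] at hx ⊢
  rw [hx4]
  have h1 : ‖Complex.exp (Complex.I * ((u * (Real.log (1 + x) + 1 / 2 * d) : ℝ) : ℂ))‖ = 1 := by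
    rw [mul_comm]; exact Complex.norm_exp_ofReal_mul_I _
  have h2 : ‖pol x d u‖ ≤ 1 + |u| * (a + a ^ 2 / 2 + 1 / 2) + u ^ 2 * (a ^ 2 + a) / 2 := by
    unfold pol
    refine le_trans (norm_sub_le _ _) ?_
    refine add_le_add (le_trans (norm_add_le _ _) ?_) ?_
    · rw [norm_one, norm_mul, Complex.norm_I, one_mul, Complex.norm_real, Real.norm_eq_abs,
        abs_mul]
      have h3 : |x - x ^ 2 / 2 + d / 2| ≤ a + a ^ 2 / 2 + 1 / 2 := by
        have h4 := abs_le.1 (le_of_eq hxa)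
        rw [hx2]
        have h5 := sq_nonneg a
        apply abs_le.2
        constructor <;> nlinarith [h4.1, h4.2]
      have := mul_le_mul_of_nonneg_left h3 (abs_nonneg u)
      linarith
    · rw [Complex.norm_real, Real.norm_eq_abs, abs_div, abs_mul, abs_of_nonneg (sq_nonneg u)]
      have h3 : |x ^ 2 + d * x| ≤ a ^ 2 + a := by
        refine le_trans (abs_add_le _ _) ?_
        rw [abs_of_nonneg (sq_nonneg x), hx2, abs_mul, hxa, abs_of_nonneg hd0]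
        nlinarith
      have h4 := mul_le_mul_of_nonneg_left h3 (sq_nonneg u)
      have h5 : |(2 : ℝ)| = 2 := by norm_num
      rw [h5]
      linarith
  refine le_trans (norm_sub_le _ _) ?_
  rw [h1]
  refine le_trans (add_le_add_right h2 1) ?_
  have k1 := pw_one u
  have k2 := pw_two u
  have e2 : 1 ≤ 4 * a ^ 2 := by nlinarith
  have e1 : a ≤ 2 * a ^ 2 := by nlinarith
  have e4 : a ^ 2 ≤ 4 * a ^ 4 := by nlinarith [sq_nonneg a]
  have e0 : 1 ≤ 16 * a ^ 4 := by nlinarith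
  have e3 : 0 ≤ a ^ 3 := by positivity
  have j1 : |u| * (a + a ^ 2 / 2 + 1 / 2) ≤ (1 + u ^ 4) * (18 * a ^ 4) :=
    mul_le_mul k1 (by linarith) (by positivity) (by positivity)
  have j2 : u ^ 2 * (a ^ 2 + a) ≤ (1 + u ^ 4) * (12 * a ^ 4) :=
    mul_le_mul k2 (by linarith) (by positivity) (by positivity)
  have j3 : 2 ≤ (1 + u ^ 4) * (32 * a ^ 4) := by
    have h5 : 0 ≤ u ^ 4 * (32 * a ^ 4) := by positivity
    linarith
  have k6 : 0 ≤ (1 + u ^ 4) * a ^ 3 := by positivity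
  have k7 : 0 ≤ (1 + u ^ 4) * a ^ 4 := by positivity
  have k8 : 0 ≤ (1 + u ^ 4) * d ^ 2 := by positivity
  nlinarith

theorem ptw (x d u : ℝ) (hd0 : 0 ≤ d) (hd1 : d ≤ 1) :
    ‖Complex.exp (Complex.I * ((u * (Real.log (1 + x) + 1 / 2 * d) : ℝ) : ℂ)) - pol x d u‖ ≤
      200 * (1 + u ^ 4) * (|x| ^ 3 + x ^ 4 + d ^ 2) := by
  rcases le_total |x| (1 / 2) with h | h
  · exact ptw_small x d u h hd0 hd1
  · exact ptw_large x d u h hd0 hd1

theorem exp_neg_bound (x : ℝ) (hx : 0 ≤ x) : |1 - x - Real.exp (-x)| ≤ x ^ 2 := by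
  have h1 := Real.one_sub_le_exp_neg x
  have h2 := Real.quadratic_le_exp_of_nonneg hx
  have h3 : Real.exp (-x) * Real.exp x = 1 := by rw [← Real.exp_add, neg_add_cancel, Real.exp_zero]
  have h4 := Real.exp_pos (-x)
  have h5 : Real.exp (-x) ≤ 1 - x + x ^ 2 := by
    have h6 : Real.exp (-x) * (1 + x + x ^ 2 / 2) ≤ 1 :=
      le_trans (mul_le_mul_of_nonneg_left h2 h4.le) h3.le
    have h7 : 0 ≤ 1 - x + x ^ 2 := by nlinarith [sq_nonneg (x - 1)]
    have h8 : 1 ≤ (1 - x + x ^ 2) * (1 + x + x ^ 2 / 2) := by nlinarith [mul_nonneg hx (sq_nonneg x), sq_nonneg (x ^ 2), sq_nonneg x]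
    have h9 : 0 < 1 + x + x ^ 2 / 2 := by positivity
    by_contra hc
    push Not at hc
    have := mul_lt_mul_of_pos_right hc h9
    linarith
  rw [abs_le]
  constructor <;> nlinarith [sq_nonneg x]

section

variable {Ω : Type} [MeasurableSpace Ω] (P : Measure Ω) [IsProbabilityMeasure P] (X : Ω → ℝ)

theorem int_abs_pow (hX : Measurable X) (h4 : Integrable (fun ω => X ω ^ 4) P) (k : ℕ)
    (hk : k ≤ 4) : Integrable (fun ω => |X ω| ^ k) P := by
  refine Integrable.mono' ((integrable_const (1 : ℝ)).add h4)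
    ((hX.abs.pow_const k).aestronglyMeasurable) (Eventually.of_forall fun ω => ?_)
  rw [Real.norm_eq_abs, abs_of_nonneg (by positivity)]
  show |X ω| ^ k ≤ 1 + X ω ^ 4
  have h1 : X ω ^ 4 = |X ω| ^ 4 := by
    rw [← abs_pow]; exact (abs_of_nonneg (by positivity)).symm
  rw [h1]
  rcases le_total |X ω| 1 with h | h
  · have h2 : |X ω| ^ k ≤ 1 := pow_le_one₀ (abs_nonneg _) h
    have h3 : 0 ≤ |X ω| ^ 4 := by positivity
    linarith
  · have h2 : |X ω| ^ k ≤ |X ω| ^ 4 := pow_le_pow_right₀ h hk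
    linarith

theorem int_sq (hX : Measurable X) (h4 : Integrable (fun ω => X ω ^ 4) P) :
    Integrable (fun ω => X ω ^ 2) P := by
  have h := int_abs_pow P X hX h4 2 (by norm_num)
  simpa only [sq_abs] using h

theorem int_one (hX : Measurable X) (h4 : Integrable (fun ω => X ω ^ 4) P) :
    Integrable X P := by
  have h := int_abs_pow P X hX h4 1 (by norm_num)
  simp only [pow_one] at h
  exact (integrable_norm_iff hX.aestronglyMeasurable).1 h

theorem cube (hX : Measurable X) (h4 : Integrable (fun ω => X ω ^ 4) P) :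
    ∫ ω, |X ω| ^ 3 ∂P ≤ Real.sqrt ((∫ ω, X ω ^ 2 ∂P) * ∫ ω, X ω ^ 4 ∂P) := by
  have i3 := int_abs_pow P X hX h4 3 (by norm_num)
  have i2 := int_sq P X hX h4
  apply Real.le_sqrt_of_sq_le
  have hd : discrim (∫ ω, X ω ^ 2 ∂P) (-(2 * ∫ ω, |X ω| ^ 3 ∂P)) (∫ ω, X ω ^ 4 ∂P) ≤ 0 := by
    apply discrim_le_zero
    intro t
    have h0 : 0 ≤ ∫ ω, (t * |X ω| - X ω ^ 2) ^ 2 ∂P := integral_nonneg fun ω => sq_nonneg _
    have h1 : ∫ ω, (t * |X ω| - X ω ^ 2) ^ 2 ∂P =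
        ∫ ω, (t * t * X ω ^ 2 - 2 * t * |X ω| ^ 3 + X ω ^ 4) ∂P := by
      refine integral_congr_ae (Eventually.of_forall fun ω => ?_)
      show (t * |X ω| - X ω ^ 2) ^ 2 = t * t * X ω ^ 2 - 2 * t * |X ω| ^ 3 + X ω ^ 4
      have h2 : X ω ^ 2 = |X ω| ^ 2 := (sq_abs _).symm
      have h3 : X ω ^ 4 = |X ω| ^ 4 := by
        have : X ω ^ 4 = (X ω ^ 2) ^ 2 := by ring
        rw [this, h2]; ring
      rw [h3, h2]
      ring
    have ea : Integrable (fun ω => t * t * X ω ^ 2) P := i2.const_mul _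
    have eb : Integrable (fun ω => 2 * t * |X ω| ^ 3) P := i3.const_mul _
    have ec : Integrable (fun ω => t * t * X ω ^ 2 - 2 * t * |X ω| ^ 3) P := ea.sub eb
    rw [h1, integral_add ec h4, integral_sub ea eb, integral_const_mul, integral_const_mul] at h0
    linarith
  unfold discrim at hd
  nlinarith

end

end LV

open LV in
theorem t_LV : S_LV := by
  refine ⟨201, by norm_num, ?_⟩
  intro Ω _ P _ X d e f hX _ h4 h0 hd0 hd1 he0 he1 hf0 hf1 hde hf u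
  have i1 := int_one P X hX h4
  have i2 := int_sq P X hX h4
  have i3 := int_abs_pow P X hX h4 3 (by norm_num)
  obtain ⟨m, hm⟩ : ∃ m, m = ∫ ω, X ω ^ 2 ∂P := ⟨_, rfl⟩
  rw [← hm] at hde
  have hm0 : 0 ≤ m := by rw [hm]; exact integral_nonneg fun ω => sq_nonneg _
  have hf4 : 0 ≤ ∫ ω, X ω ^ 4 ∂P := integral_nonneg fun ω => by positivity
  have hde' := abs_le.1 hde
  -- the cube
  have hcube : ∫ ω, |X ω| ^ 3 ∂P ≤ Real.sqrt ((d + e) * f) := by
    refine le_trans (cube P X hX h4) (Real.sqrt_le_sqrt ?_)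
    rw [← hm]
    exact mul_le_mul (by linarith [hde'.2]) hf hf4 (by linarith)
  -- integrability
  have hmeas : Measurable fun ω =>
      Complex.exp (Complex.I * ((u * (Real.log (1 + X ω) + 1 / 2 * d) : ℝ) : ℂ)) := by
    apply Complex.measurable_exp.comp
    apply Measurable.const_mul
    apply Complex.measurable_ofReal.comp
    exact ((Real.measurable_log.comp (measurable_const.add hX)).add_const _).const_mul u
  have hexp : Integrable (fun ω =>
      Complex.exp (Complex.I * ((u * (Real.log (1 + X ω) + 1 / 2 * d) : ℝ) : ℂ))) P := by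
    refine Integrable.mono' (integrable_const (1 : ℝ)) hmeas.aestronglyMeasurable
      (Eventually.of_forall fun ω => ?_)
    rw [mul_comm, Complex.norm_exp_ofReal_mul_I]
  have ia : Integrable (fun ω => u * (X ω - X ω ^ 2 / 2 + d / 2)) P :=
    ((i1.sub (i2.div_const 2)).add (integrable_const _)).const_mul u
  have ib : Integrable (fun ω => u ^ 2 * (X ω ^ 2 + d * X ω) / 2) P :=
    ((i2.add (i1.const_mul d)).const_mul (u ^ 2)).div_const 2
  have hpol : Integrable (fun ω => pol (X ω) d u) P := by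
    unfold pol
    exact ((integrable_const _).add (ia.ofReal.const_mul Complex.I)).sub ib.ofReal
  have hpolint : ∫ ω, pol (X ω) d u ∂P =
      1 + Complex.I * ((u * (d - m) / 2 : ℝ) : ℂ) - ((u ^ 2 * m / 2 : ℝ) : ℂ) := by
    have ja : ∫ ω, u * (X ω - X ω ^ 2 / 2 + d / 2) ∂P = u * (d - m) / 2 := by
      have ea : Integrable (fun ω => X ω ^ 2 / 2) P := i2.div_const 2
      have eb : Integrable (fun ω => X ω - X ω ^ 2 / 2) P := i1.sub ea
      rw [integral_const_mul, integral_add eb (integrable_const _),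
        integral_sub i1 ea, integral_div, h0, ← hm, integral_const]
      simp only [probReal_univ, smul_eq_mul]
      ring
    have jb : ∫ ω, u ^ 2 * (X ω ^ 2 + d * X ω) / 2 ∂P = u ^ 2 * m / 2 := by
      have ea : Integrable (fun ω => d * X ω) P := i1.const_mul d
      rw [integral_div, integral_const_mul, integral_add i2 ea, integral_const_mul,
        h0, ← hm]
      ring
    have ec : Integrable (fun ω => Complex.I * ((u * (X ω - X ω ^ 2 / 2 + d / 2) : ℝ) : ℂ)) P :=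
      ia.ofReal.const_mul Complex.I
    have ed : Integrable (fun ω => ((u ^ 2 * (X ω ^ 2 + d * X ω) / 2 : ℝ) : ℂ)) P := ib.ofReal
    have ee : Integrable (fun ω => (1 : ℂ) +
        Complex.I * ((u * (X ω - X ω ^ 2 / 2 + d / 2) : ℝ) : ℂ)) P := (integrable_const _).add ec
    unfold pol
    rw [integral_sub ee ed, integral_add (integrable_const _) ec, integral_const_mul,
      integral_const, integral_complex_ofReal, integral_complex_ofReal, ja, jb]
    simp only [probReal_univ, one_smul]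
  -- the main difference
  have hdiff : ‖∫ ω, (Complex.exp (Complex.I * ((u * (Real.log (1 + X ω) + 1 / 2 * d) : ℝ) : ℂ)) -
      pol (X ω) d u) ∂P‖ ≤ 200 * (1 + u ^ 4) * (Real.sqrt ((d + e) * f) + f + d ^ 2) := by
    have hg : Integrable (fun ω => 200 * (1 + u ^ 4) * (|X ω| ^ 3 + X ω ^ 4 + d ^ 2)) P :=
      ((i3.add h4).add (integrable_const _)).const_mul _
    refine le_trans (norm_integral_le_of_norm_le hg
      (Eventually.of_forall fun ω => ptw (X ω) d u hd0 hd1)) ?_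
    have ea : Integrable (fun ω => |X ω| ^ 3 + X ω ^ 4) P := i3.add h4
    rw [integral_const_mul, integral_add ea (integrable_const _), integral_add i3 h4,
      integral_const]
    simp only [probReal_univ, one_smul]
    apply mul_le_mul_of_nonneg_left _ (by positivity)
    linarith
  rw [integral_sub hexp hpol, hpolint] at hdiff
  have hsec : ‖(1 + Complex.I * ((u * (d - m) / 2 : ℝ) : ℂ) - ((u ^ 2 * m / 2 : ℝ) : ℂ)) -
      Complex.exp ((-(u ^ 2 / 2 * d) : ℝ) : ℂ)‖ ≤ (1 + u ^ 4) * (e + d ^ 2) := by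
    have h5 : (1 + Complex.I * ((u * (d - m) / 2 : ℝ) : ℂ) - ((u ^ 2 * m / 2 : ℝ) : ℂ)) -
        Complex.exp ((-(u ^ 2 / 2 * d) : ℝ) : ℂ) =
        ((1 - u ^ 2 / 2 * d - Real.exp (-(u ^ 2 / 2 * d)) : ℝ) : ℂ) +
        (((u ^ 2 / 2 * (d - m) : ℝ) : ℂ) + Complex.I * ((u * (d - m) / 2 : ℝ) : ℂ)) := by
      rw [← Complex.ofReal_exp]
      push_cast
      ring
    rw [h5]
    have h6 : |d - m| ≤ e := by rw [abs_sub_comm]; exact hde
    have h7 := exp_neg_bound (u ^ 2 / 2 * d) (by positivity)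
    refine le_trans (norm_add_le _ _) ?_
    refine le_trans (add_le_add (le_of_eq (by rw [Complex.norm_real, Real.norm_eq_abs]))
      (norm_add_le _ _)) ?_
    have h8 : ‖((u ^ 2 / 2 * (d - m) : ℝ) : ℂ)‖ = u ^ 2 / 2 * |d - m| := by
      rw [Complex.norm_real, Real.norm_eq_abs, abs_mul, abs_of_nonneg (by positivity)]
    have h9 : ‖Complex.I * ((u * (d - m) / 2 : ℝ) : ℂ)‖ = |u| * |d - m| / 2 := by
      rw [norm_mul, Complex.norm_I, one_mul, Complex.norm_real, Real.norm_eq_abs, abs_div, abs_mul]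
      norm_num
    rw [h8, h9]
    have k1 := pw_one u
    have k2 := pw_two u
    have j1 : |u| * |d - m| ≤ (1 + u ^ 4) * e := mul_le_mul k1 h6 (abs_nonneg _) (by positivity)
    have j2 : u ^ 2 * |d - m| ≤ (1 + u ^ 4) * e := mul_le_mul k2 h6 (abs_nonneg _) (by positivity)
    have j3 : (u ^ 2 / 2 * d) ^ 2 ≤ (1 + u ^ 4) * d ^ 2 := by nlinarith [sq_nonneg d, mul_nonneg (sq_nonneg (u ^ 2)) (sq_nonneg d)]
    linarith
  have hfin : (∫ ω, Complex.exp (Complex.I * ((u * (Real.log (1 + X ω) + 1 / 2 * d) : ℝ) : ℂ)) ∂P) -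
      Complex.exp ((-(u ^ 2 / 2 * d) : ℝ) : ℂ) =
      ((∫ ω, Complex.exp (Complex.I * ((u * (Real.log (1 + X ω) + 1 / 2 * d) : ℝ) : ℂ)) ∂P) -
        (1 + Complex.I * ((u * (d - m) / 2 : ℝ) : ℂ) - ((u ^ 2 * m / 2 : ℝ) : ℂ))) +
      ((1 + Complex.I * ((u * (d - m) / 2 : ℝ) : ℂ) - ((u ^ 2 * m / 2 : ℝ) : ℂ)) -
      Complex.exp ((-(u ^ 2 / 2 * d) : ℝ) : ℂ)) := by ring
  rw [hfin]
  refine le_trans (norm_add_le _ _) (le_trans (add_le_add hdiff hsec) ?_)
  have k1 : 0 ≤ (1 + u ^ 4) * e := by positivity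
  have k2 : 0 ≤ (1 + u ^ 4) * f := by positivity
  have k3 : 0 ≤ (1 + u ^ 4) * Real.sqrt ((d + e) * f) := by positivity
  nlinarith

end Pool.Agent.H550.QC

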